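import Pool.Agent.Mg.Fda2386.G63c981

section

open Module QuadraticMap

namespace Pool.Agent.MP_da2386_co

variable {F V : Type*} [Field F] [AddCommGroup V] [Module F V] {Q : QuadraticForm F V}

lemma polar_factor [FiniteDimensional F V] (Q : QuadraticForm F V) :
    ∃ φ ψ : Fin (finrank F (LinearMap.range Q.polarBilin)) → V → F,
      ∀ x y, polar Q x y = ∑ k, φ k x * ψ k y := by
  have : Module.Free F (LinearMap.range Q.polarBilin) :=
    Module.Free.of_divisionRing F (LinearMap.range (Q.polarBilin : V →ₗ[F] Module.Dual F V))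
  let b := Module.finBasis F (LinearMap.range Q.polarBilin)
  refine ⟨fun k x => b.repr ⟨Q.polarBilin x, LinearMap.mem_range_self _ x⟩ k,
    fun k y => (b k : Module.Dual F V) y, fun x y => ?_⟩
  have := congrArg (fun l : LinearMap.range Q.polarBilin => (l : Module.Dual F V) y)
    (b.sum_repr ⟨Q.polarBilin x, LinearMap.mem_range_self _ x⟩)
  simp only [Submodule.coe_sum, Submodule.coe_smul, LinearMap.sum_apply, LinearMap.smul_apply,
    smul_eq_mul, polarBilin_apply_apply] at this
  exact this.symm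

lemma det_alt_odd [CharP F 2] {n : ℕ} (hn : ¬ 2 ∣ n) (A : Matrix (Fin n) (Fin n) F)
    (hs : ∀ i j, A i j = A j i) (hd : ∀ i, A i i = 0) : A.det = 0 := by
  rw [Matrix.det_apply]
  refine Finset.sum_involution (fun σ _ => σ⁻¹) ?_ ?_ (fun _ _ => Finset.mem_univ _)
    (fun _ _ => inv_inv _)
  · intro σ _
    have : ∏ i, A (σ⁻¹ i) i = ∏ i, A (σ i) i := by
      rw [← Equiv.prod_comp σ]
      simp [hs]
    rw [this, Equiv.Perm.sign_inv]
    exact CharTwo.add_self_eq_zero _
  · intro σ _ h1 h2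
    apply h1
    have h3 : σ ^ 2 ^ 1 = 1 := by
      rw [pow_one, pow_two]
      nth_rewrite 1 [← h2]
      exact inv_mul_cancel σ
    obtain ⟨i, hi⟩ := Equiv.Perm.exists_fixed_point_of_prime (p := 2) (by simpa using hn) h3
    rw [Finset.prod_eq_zero (Finset.mem_univ i) (by rw [hi, hd]), smul_zero]

lemma rank_polar_lt [CharP F 2] [FiniteDimensional F V] (hn : ¬ 2 ∣ finrank F V) :
    finrank F (LinearMap.range Q.polarBilin) < finrank F V := by
  classical
  let e := Module.finBasis F V
  have h1 : (LinearMap.BilinForm.toMatrix e Q.polarBilin).det = 0 := by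
    apply det_alt_odd hn
    · intro i j
      simp [polar_comm]
    · intro i
      simp [CharTwo.two_eq_zero]
  have h2 : ¬ LinearMap.BilinForm.Nondegenerate Q.polarBilin := by
    rw [LinearMap.BilinForm.nondegenerate_iff_det_ne_zero e]
    simpa using h1
  have h3 : LinearMap.ker Q.polarBilin ≠ ⊥ := by
    intro h
    apply h2
    rw [LinearMap.BilinForm.nondegenerate_iff_ker_eq_bot]
    exact h
  have h4 := Q.polarBilin.finrank_range_add_finrank_ker
  have h5 : finrank F (LinearMap.ker Q.polarBilin) ≠ 0 := by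
    rwa [Ne, Submodule.finrank_eq_zero]
  omega

lemma two_num (s : ℕ) : 2 * (s + 4) ≤ 2 ^ (s + 3) := by
  induction s with
  | zero => norm_num
  | succ s ih => rw [show s + 1 + 3 = (s + 3) + 1 from rfl, pow_succ]; omega

theorem char_two_neg [Finite F] [CharP F 2] [FiniteDimensional F V] (hQ : Q.radical = ⊥) {r : ℕ}
    (hr : HasWittIndex Q r) (h2 : 2 ≤ r) (h : HasOvoidPartition Q) :
    finrank F V = 2 * r ∧ r ≤ 3 := by
  classical
  have : Fintype F := Fintype.ofFinite F
  obtain ⟨G, hG, -⟩ := exists_gen (Q := Q) (W := ⊥) (by intro v hv; simp_all)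
  have hGr := hr G hG
  have hle := TotSing.two_mul_le hQ hG.1
  obtain ⟨hh, -, hq⟩ := FiniteField.card F 2
  by_contra hc
  obtain ⟨φ, ψ, H⟩ := polar_factor Q
  refine no_partition hQ (by omega) hG
    (perpFactor_of_pow hq φ ψ fun x y _ _ => by rw [← H, show 2 - 1 = 1 from rfl, pow_one]) ?_ h
  rw [Fintype.card_option, Fintype.card_fun, Fintype.card_fin, Nat.card_eq_fintype_card, hq,
    ← pow_mul, mul_comm, pow_mul, Fintype.card_fin, hGr]
  refine Nat.succ_le_succ (Nat.pow_le_pow_left ?_ _)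
  rw [hGr] at hle
  have h3 := Q.polarBilin.finrank_range_le
  by_cases h5 : 4 ≤ finrank F V - r
  · obtain ⟨s, hs⟩ := Nat.exists_eq_add_of_le' h5
    have h6 := two_num s
    rw [hs, show s + 4 - 1 = s + 3 from rfl]
    omega
  · have h8 : finrank F V = 5 := by omega
    have h7 := rank_polar_lt (Q := Q) (by rw [h8]; norm_num)
    have h9 : finrank F V - r - 1 = 2 := by omega
    rw [h9]
    omega

/-- hyperbolic coordinates -/
lemma exists_hyp [FiniteDimensional F V] (hQ : Q.radical = ⊥) {G : Submodule F V}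
    (hG : TotSing Q G) {r : ℕ} (hr : finrank F G = r) (hn : finrank F V = 2 * r) :
    ∃ e : ((Fin r → F) × (Fin r → F)) ≃ₗ[F] V, ∀ s t, Q (e (s, t)) = s ⬝ᵥ t := by
  classical
  let b := Module.finBasisOfFinrankEq F G hr
  let T : V →ₗ[F] (Fin r → F) := LinearMap.pi fun i => Q.polarBilin (b i)
  have hT : LinearMap.range T = ⊤ := by
    have h1 := Subspace.finrank_add_finrank_dualCoannihilator_eq
      (LinearMap.range (Q.polarBilin.comp G.subtype))
    rw [LinearMap.finrank_range_of_inj (hG.polar_inj hQ)] at h1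
    have h2 : LinearMap.ker T ≤
        (LinearMap.range (Q.polarBilin.comp G.subtype)).dualCoannihilator := by
      intro v hv
      rw [Submodule.mem_dualCoannihilator]
      rintro _ ⟨x, rfl⟩
      rw [← b.sum_repr x, map_sum, LinearMap.sum_apply]
      refine Finset.sum_eq_zero fun i _ => ?_
      have : polar Q (b i : V) v = 0 := congrFun hv i
      simp [this]
    have h3 := Submodule.finrank_mono h2
    have h4 := T.finrank_range_add_finrank_ker
    have h5 := (LinearMap.range T).finrank_le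
    apply Submodule.eq_top_of_finrank_eq
    simp only [finrank_fintype_fun_eq_card, Fintype.card_fin] at h5 ⊢
    omega
  have hw : ∀ j : Fin r, ∃ w, T w = Pi.single j 1 := fun j => LinearMap.range_eq_top.1 hT _
  choose w hw using hw
  have hbw : ∀ i j, polar Q (b i : V) (w j) = if i = j then 1 else 0 := by
    intro i j
    have := congrFun (hw j) i
    rw [Pi.single_apply] at this
    exact this
  let a : Fin r → Fin r → F := fun j i =>
    if i = j then Q (w j) else if i < j then polar Q (w j) (w i) else 0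
  let g : Fin r → G := fun j => ∑ i, a j i • b i
  have hgw : ∀ j k, polar Q (g j : V) (w k) = a j k := by
    intro j k
    simp only [g, Submodule.coe_sum, Submodule.coe_smul]
    rw [← polarBilin_apply_apply, map_sum, LinearMap.sum_apply]
    simp [hbw]
  let u : Fin r → V := fun j => w j - g j
  have hbu : ∀ i j, polar Q (b i : V) (u j) = if i = j then 1 else 0 := by
    intro i j
    rw [polar_sub_right, hbw, hG.polar (b i).2 (g j).2, sub_zero]
  have hQu : ∀ j, Q (u j) = 0 := by
    intro j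
    simp only [u]
    rw [sub_eq_add_neg, q_add, QuadraticMap.map_neg, hG _ (g j).2, polar_neg_right, polar_comm,
      hgw]
    simp [a]
  have huu : ∀ j k, polar Q (u j) (u k) = 0 := by
    intro j k
    by_cases hjk : j = k
    · rw [hjk, polar_self, hQu]; simp
    · simp only [u]
      rw [polar_sub_left, polar_sub_right, polar_sub_right, hG.polar (g j).2 (g k).2,
        polar_comm Q (w j) (g k), hgw, hgw]
      simp only [a, if_neg hjk, if_neg (Ne.symm hjk)]
      rcases lt_or_gt_of_ne hjk with h | h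
      · rw [if_pos h, if_neg h.not_gt, polar_comm]; ring
      · rw [if_pos h, if_neg h.not_gt]; ring
  let U : (Fin r → F) →ₗ[F] V := Fintype.linearCombination F u
  let B : (Fin r → F) →ₗ[F] V := G.subtype.comp b.equivFun.symm.toLinearMap
  have hB : ∀ s, B s = ∑ i, s i • (b i : V) := by
    intro s
    simp [B]
  have hU : ∀ t, U t = ∑ i, t i • u i := fun t => Fintype.linearCombination_apply _ _ _
  have hbU : ∀ i t, polar Q (b i : V) (U t) = t i := by
    intro i t
    rw [hU, ← polarBilin_apply_apply, map_sum]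
    simp [hbu]
  have hBU : ∀ s t, polar Q (B s) (U t) = s ⬝ᵥ t := by
    intro s t
    rw [hB, ← polarBilin_apply_apply, map_sum, LinearMap.sum_apply]
    simp [hbU, dotProduct]
  have hQU : ∀ t, Q (U t) = 0 := by
    intro t
    have : ∀ S : Finset (Fin r), Q (∑ i ∈ S, t i • u i) = 0 := by
      intro S
      induction S using Finset.induction_on with
      | empty => simp
      | insert j S hj ih =>
        rw [Finset.sum_insert hj, q_add, ih, QuadraticMap.map_smul, hQu,
          ← polarBilin_apply_apply, map_sum]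
        simp [huu]
    rw [hU]; exact this _
  have hBG : ∀ s, B s ∈ G := fun s => (b.equivFun.symm s).2
  let E := B.coprod U
  have hinj : Function.Injective E := by
    rw [injective_iff_map_eq_zero]
    rintro ⟨s, t⟩ hst
    have h1 : B s + U t = 0 := hst
    have ht : t = 0 := by
      funext i
      have := congrArg (polar Q (b i : V)) h1
      rw [polar_add_right, hbU, hG.polar (b i).2 (hBG s), polar_zero_right, zero_add] at this
      exact this
    rw [ht, map_zero, add_zero] at h1
    have hs : b.equivFun.symm s = 0 := Subtype.ext h1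
    rw [ht, (map_eq_zero_iff _ b.equivFun.symm.injective).1 hs]
    rfl
  refine ⟨LinearMap.linearEquivOfInjective E hinj (by simp [hn, two_mul]), fun s t => ?_⟩
  show Q (B s + U t) = _
  rw [q_add, hG _ (hBG s), hQU, hBU, zero_add, zero_add]

end Pool.Agent.MP_da2386_co

end

section

open Module QuadraticMap

namespace Pool.Agent.MP_da2386_co

variable {F V : Type*} [Field F] [AddCommGroup V] [Module F V] {Q : QuadraticForm F V}

/-- a proper colouring of the points by the points of a projective space of the dimension of a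
generator gives a partition into ovoids -/
lemma partition_of_colouring [Finite F] [FiniteDimensional F V] {r : ℕ} (hr : HasWittIndex Q r)
    (c : V → (Fin r → F)) (h1 : ∀ v, Q v = 0 → v ≠ 0 → c v ≠ 0)
    (h2 : ∀ v (l : F), Q v = 0 → l ≠ 0 → ∃ m : F, c (l • v) = m • c v)
    (h3 : ∀ v w (m : F), Q v = 0 → Q w = 0 → v ≠ 0 → w ≠ 0 → polar Q v w = 0 → c w = m • c v →
      ∃ l : F, w = l • v) : HasOvoidPartition Q := by
  classical
  let O : Submodule F (Fin r → F) → Set (Submodule F V) := fun L =>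
    {P | IsPoint Q P ∧ ∃ v ∈ P, v ≠ 0 ∧ c v ∈ L}
  have hall : ∀ L P, P ∈ O L → ∀ v ∈ P, v ≠ 0 → c v ∈ L := by
    rintro L P ⟨hP, w, hw, hw0, hc⟩ v hv hv0
    rw [eq_span_of_finrank hP.2 hw hw0] at hv
    obtain ⟨l, rfl⟩ := Submodule.mem_span_singleton.1 hv
    obtain ⟨m, hm⟩ := h2 w l (hP.1 w hw) (fun h => hv0 (by rw [h, zero_smul]))
    rw [hm]; exact L.smul_mem _ hc
  refine ⟨O '' {L | finrank F L = 1}, ?_, ?_, ?_⟩
  · rintro _ ⟨L, hL, rfl⟩
    refine ⟨fun P hP => hP.1, fun G hG => ?_⟩
    have : Finite V := Module.finite_of_finite F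
    let f : Projectivization F G → Projectivization F (Fin r → F) := fun P =>
      Projectivization.mk F (c P.rep) (h1 _ (hG.1 _ P.rep.2) (by simpa using P.rep_nonzero))
    have hinj : Function.Injective f := by
      intro P P' h
      obtain ⟨m, hm⟩ := (Projectivization.mk_eq_mk_iff' _ _ _ _ _).1 h
      obtain ⟨l, hl⟩ := h3 _ _ m (hG.1 _ P'.rep.2) (hG.1 _ P.rep.2)
        (by simpa using P'.rep_nonzero) (by simpa using P.rep_nonzero)
        (TotSing.polar hG.1 P'.rep.2 P.rep.2) hm.symm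
      rw [← P.mk_rep, ← P'.mk_rep, Projectivization.mk_eq_mk_iff']
      exact ⟨l, Subtype.ext hl.symm⟩
    have hcard : Nat.card (Projectivization F G) = Nat.card (Projectivization F (Fin r → F)) := by
      rw [Projectivization.card_of_finrank F G (hr G hG),
        Projectivization.card_of_finrank F (Fin r → F) (n := r) (by simp)]
    have hsurj := ((Nat.bijective_iff_injective_and_card f).2 ⟨hinj, hcard⟩).2
    obtain ⟨u, hu, hu0⟩ := exists_ne_zero_of_finrank hL
    obtain ⟨P, hP⟩ := hsurj (Projectivization.mk F u hu0)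
    obtain ⟨m, hm⟩ := (Projectivization.mk_eq_mk_iff' _ _ _ _ _).1 hP
    have hP0 : (P.rep : V) ≠ 0 := by simpa using P.rep_nonzero
    have hcP : c P.rep ∈ L := by rw [← hm]; exact L.smul_mem _ hu
    refine ⟨F ∙ (P.rep : V), ⟨⟨isPoint_span (hG.1 _ P.rep.2) hP0, P.rep,
      Submodule.mem_span_singleton_self _, hP0, hcP⟩,
      (Submodule.span_singleton_le_iff_mem _ _).2 P.rep.2⟩, ?_⟩
    rintro P' ⟨⟨hP', w, hw, hw0, hc⟩, hle⟩
    rw [eq_span_of_finrank hL hcP (h1 _ (hG.1 _ P.rep.2) hP0)] at hc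
    obtain ⟨m', hm'⟩ := Submodule.mem_span_singleton.1 hc
    obtain ⟨l, hl⟩ := h3 _ _ m' (hG.1 _ P.rep.2) (hP'.1 w hw) hP0 hw0
      (TotSing.polar hG.1 P.rep.2 (hle hw)) hm'.symm
    rw [eq_span_of_finrank hP'.2 hw hw0]
    symm
    refine eq_span_of_finrank (finrank_span_singleton hP0) ?_ hw0
    rw [hl]; exact Submodule.smul_mem _ _ (Submodule.mem_span_singleton_self _)
  · rintro _ ⟨L, hL, rfl⟩ _ ⟨L', hL', rfl⟩ hne
    rw [Function.onFun, Set.disjoint_left]
    intro P hP hP'
    apply hne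
    obtain ⟨hp, v, hv, hv0, hc⟩ := hP
    have h4 := hall L' P hP' v hv hv0
    have h5 := h1 v (hp.1 v hv) hv0
    rw [eq_span_of_finrank hL hc h5, eq_span_of_finrank hL' h4 h5]
  · ext P
    constructor
    · rintro ⟨_, ⟨L, -, rfl⟩, hP⟩
      exact hP.1
    · intro hP
      obtain ⟨v, hv, hv0⟩ := exists_ne_zero_of_finrank hP.2
      exact ⟨_, ⟨F ∙ c v, finrank_span_singleton (h1 v (hP.1 v hv) hv0), rfl⟩, hP, v, hv, hv0,
        Submodule.mem_span_singleton_self _⟩

/-- a colouring of the standard hyperbolic quadric -/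
def Col (F : Type*) [Field F] (r : ℕ) : Prop :=
  ∃ c : (Fin r → F) → (Fin r → F) → (Fin r → F),
    (∀ s t, s ⬝ᵥ t = 0 → ¬ (s = 0 ∧ t = 0) → c s t ≠ 0) ∧
    (∀ s t (l : F), s ⬝ᵥ t = 0 → l ≠ 0 → ∃ m : F, c (l • s) (l • t) = m • c s t) ∧
    (∀ s t s' t' (m : F), s ⬝ᵥ t = 0 → s' ⬝ᵥ t' = 0 → ¬ (s = 0 ∧ t = 0) → ¬ (s' = 0 ∧ t' = 0) →
      s ⬝ᵥ t' + s' ⬝ᵥ t = 0 → c s' t' = m • c s t → ∃ l : F, s' = l • s ∧ t' = l • t)

lemma partition_of_col [Finite F] [FiniteDimensional F V] (hQ : Q.radical = ⊥) {r : ℕ}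
    (hr : HasWittIndex Q r) (hn : finrank F V = 2 * r) (h : Col F r) : HasOvoidPartition Q := by
  obtain ⟨G, hG, -⟩ := exists_gen (Q := Q) (W := ⊥) (by intro v hv; simp_all)
  obtain ⟨e, he⟩ := exists_hyp hQ hG.1 (hr G hG) hn
  obtain ⟨c, h1, h2, h3⟩ := h
  refine partition_of_colouring hr (fun v => c (e.symm v).1 (e.symm v).2) ?_ ?_ ?_
  · intro v hv h0
    obtain ⟨⟨s, t⟩, rfl⟩ := e.surjective v
    rw [e.symm_apply_apply]
    refine h1 s t (by rw [← he, hv]) ?_
    rintro ⟨rfl, rfl⟩
    exact h0 e.map_zero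
  · intro v l hv hl
    obtain ⟨⟨s, t⟩, rfl⟩ := e.surjective v
    simp only [map_smul, e.symm_apply_apply, Prod.smul_mk]
    exact h2 s t l (by rw [← he, hv]) hl
  · intro v w m hv hw hv0 hw0 hp hc
    obtain ⟨⟨s, t⟩, rfl⟩ := e.surjective v
    obtain ⟨⟨s', t'⟩, rfl⟩ := e.surjective w
    simp only [e.symm_apply_apply] at hc
    have h4 := q_add Q (e (s, t)) (e (s', t'))
    rw [← map_add, Prod.mk_add_mk, he, hv, hw, hp, add_dotProduct, dotProduct_add, dotProduct_add,
      ← he s t, ← he s' t', hv, hw] at h4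
    obtain ⟨l, rfl, rfl⟩ := h3 s t s' t' m (by rw [← he, hv]) (by rw [← he, hw])
      (by rintro ⟨rfl, rfl⟩; exact hv0 e.map_zero) (by rintro ⟨rfl, rfl⟩; exact hw0 e.map_zero)
      (by linear_combination h4) hc
    exact ⟨l, by rw [← map_smul, Prod.smul_mk]⟩

lemma Col.map {F' : Type*} [Field F'] {r : ℕ} (e : F ≃+* F') (h : Col F r) : Col F' r := by
  obtain ⟨c, h1, h2, h3⟩ := h
  have hdot : ∀ s t : Fin r → F', (e.symm ∘ s) ⬝ᵥ (e.symm ∘ t) = e.symm (s ⬝ᵥ t) := by
    intro s t; simp [dotProduct]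
  have hz : ∀ s : Fin r → F', e.symm ∘ s = 0 → s = 0 := by
    intro s hs; funext i; simpa using congrFun hs i
  have hsm : ∀ (l : F') (s : Fin r → F'), e.symm ∘ (l • s) = e.symm l • (e.symm ∘ s) := by
    intro l s; funext i; simp
  refine ⟨fun s t => e ∘ c (e.symm ∘ s) (e.symm ∘ t), ?_, ?_, ?_⟩
  · intro s t hst h0 hc
    refine h1 _ _ (by rw [hdot, hst, map_zero]) (fun h => h0 ⟨hz _ h.1, hz _ h.2⟩) ?_
    funext i; simpa using congrFun hc i
  · intro s t l hst hl
    obtain ⟨m, hm⟩ := h2 _ _ (e.symm l) (by rw [hdot, hst, map_zero]) (by simpa using hl)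
    refine ⟨e m, ?_⟩
    simp only [hsm, hm]
    funext i; simp
  · intro s t s' t' m h h' h0 h0' hp hc
    obtain ⟨l, hs, ht⟩ := h3 _ _ _ _ (e.symm m) (by rw [hdot, h, map_zero])
      (by rw [hdot, h', map_zero]) (fun h => h0 ⟨hz _ h.1, hz _ h.2⟩)
      (fun h => h0' ⟨hz _ h.1, hz _ h.2⟩) (by rw [hdot, hdot, ← map_add, hp, map_zero]) (by
        funext i
        apply e.injective
        simpa using congrFun hc i)
    refine ⟨e l, ?_, ?_⟩
    · funext i
      apply e.symm.injective
      simpa using congrFun hs i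
    · funext i
      apply e.symm.injective
      simpa using congrFun ht i

lemma exists_aniso [Finite F] [CharP F 2] :
    ∃ d : F, ∀ a b : F, a ^ 2 + a * b + d * b ^ 2 = 0 → a = 0 ∧ b = 0 := by
  have h : ¬ Function.Surjective fun x : F => x ^ 2 + x := by
    rw [← Finite.injective_iff_surjective]
    intro h
    have : (1 : F) = 0 := h (by simp [CharTwo.add_self_eq_zero])
    exact one_ne_zero this
  unfold Function.Surjective at h
  push Not at h
  obtain ⟨d, hd⟩ := h
  refine ⟨d, fun a b hab => ?_⟩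
  have h2 : (2 : F) = 0 := CharTwo.two_eq_zero
  by_cases hb : b = 0
  · subst hb
    simpa using hab
  · exfalso
    apply hd (a / b)
    field_simp
    linear_combination hab - d * b ^ 2 * h2

lemma col_two [Finite F] [CharP F 2] : Col F 2 := by
  obtain ⟨d, hd⟩ := exists_aniso (F := F)
  have h2 : (2 : F) = 0 := CharTwo.two_eq_zero
  refine ⟨fun s t => ![t 1 + d * s 1, t 0 + s 0 + s 1], ?_, ?_, ?_⟩
  · intro s t hst h0 hc
    have e0 : t 1 + d * s 1 = 0 := congrFun hc 0
    have e1 : t 0 + s 0 + s 1 = 0 := congrFun hc 1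
    simp only [dotProduct, Fin.sum_univ_two] at hst
    obtain ⟨a0, a1⟩ := hd (s 0) (s 1) (by
      linear_combination s 0 * e1 + s 1 * e0 - hst)
    apply h0
    refine ⟨?_, ?_⟩ <;> funext i <;> fin_cases i
    · exact a0
    · exact a1
    · show t 0 = 0
      linear_combination e1 - a0 - a1
    · show t 1 = 0
      linear_combination e0 - d * a1
  · intro s t l _ _
    refine ⟨l, ?_⟩
    funext i; fin_cases i <;> simp <;> ring
  · intro s t s' t' m h h' _ _ hp hc
    have e0 : t' 1 + d * s' 1 = m * (t 1 + d * s 1) := congrFun hc 0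
    have e1 : t' 0 + s' 0 + s' 1 = m * (t 0 + s 0 + s 1) := congrFun hc 1
    simp only [dotProduct, Fin.sum_univ_two] at h h' hp
    obtain ⟨a0, a1⟩ := hd (s' 0 - m * s 0) (s' 1 - m * s 1) (by
      linear_combination (s' 0 - m * s 0) * e1 + (s' 1 - m * s 1) * e0 - h' - m ^ 2 * h + m * hp)
    refine ⟨m, ?_, ?_⟩ <;> funext i <;> fin_cases i <;> simp
    · linear_combination a0
    · linear_combination a1
    · linear_combination e1 - a0 - a1
    · linear_combination e0 - d * a1

set_option synthInstance.maxSize 100000 in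
set_option maxRecDepth 100000 in
lemma col_three_two : Col (ZMod 2) 3 := by
  refine ⟨fun s t => ![t 0 + s 1 * t 2 + s 0, t 1 + t 0 + t 0 * t 2 + s 1,
    t 2 + t 0 + s 2 + s 1 + s 1 * t 0], by decide, by decide, ?_⟩
  intro s t s' t' m h h' h0 h0' hp hc
  have key : ∀ a b c d e f a' b' c' d' e' f' m : ZMod 2, a * d + b * e + c * f = 0 →
      a' * d' + b' * e' + c' * f' = 0 →
      a * d' + b * e' + c * f' + (a' * d + b' * e + c' * f) = 0 →
      d' + b' * f' + a' = m * (d + b * f + a) → e' + d' + d' * f' + b' = m * (e + d + d * f + b) →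
      f' + d' + c' + b' + b' * d' = m * (f + d + c + b + b * d) →
      (a = 0 ∧ b = 0 ∧ c = 0 ∧ d = 0 ∧ e = 0 ∧ f = 0) ∨
      (a' = m * a ∧ b' = m * b ∧ c' = m * c ∧ d' = m * d ∧ e' = m * e ∧ f' = m * f) := by
    decide
  simp only [dotProduct, Fin.sum_univ_three] at h h' hp
  rcases key _ _ _ _ _ _ _ _ _ _ _ _ m h h' hp (congrFun hc 0) (congrFun hc 1) (congrFun hc 2) with
    k | k
  · exfalso
    apply h0
    constructor <;> funext i <;> fin_cases i <;> simp [k]
  · refine ⟨m, ?_, ?_⟩ <;> funext i <;> fin_cases i <;> simp [k]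

end Pool.Agent.MP_da2386_co

end

section

open Module QuadraticMap

namespace Pool.Agent.MP_da2386_co

variable {F : Type*} [Field F]

/-- the anisotropic binary form -/
def nf (d a b : F) : F := a ^ 2 + a * b + d * b ^ 2

open Classical in
/-- a colouring of Denniston type -/
noncomputable def cc (d τ α γ x1 x2 y1 y2 : F) : Fin 3 → F :=
  if α = 0 then ![x1, x2, γ] else if y1 = 0 ∧ y2 = 0 then ![0, 0, 1] else
    ![α * y1, α * y2, y1 * x2 + y2 * x1 + τ * nf d y1 y2]

section
variable [CharP F 2] {d τ σ : F} (hd : ∀ a b : F, nf d a b = 0 → a = 0 ∧ b = 0)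
  (hτ0 : τ ≠ 0) (hτ : τ * σ = σ ^ 2 + 1)
include hd hτ0 hτ

lemma den_key {z1 z2 y1 y2 : F} (hn : nf d z1 z2 = nf d y1 y2)
    (hb : y1 * z2 + y2 * z1 = τ * nf d y1 y2) : y1 = 0 ∧ y2 = 0 := by
  have h2 : (2 : F) = 0 := CharTwo.two_eq_zero
  have h3 : nf d (z1 * y1 + z1 * y2 + d * z2 * y2) (y1 * z2 + y2 * z1) =
      nf d z1 z2 * nf d y1 y2 := by
    unfold nf
    linear_combination (z1 ^ 2 * y1 * y2 + z1 ^ 2 * y2 ^ 2 + 2 * d * z1 * z2 * y1 * y2 +
      d * z1 * z2 * y2 ^ 2) * h2
  rw [hn, hb] at h3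
  apply hd
  generalize nf d y1 y2 = n at *
  generalize z1 * y1 + z1 * y2 + d * z2 * y2 = c at *
  have h4 := (hd (c + σ * n) (τ * n) (by
    unfold nf at *
    linear_combination h3 + n ^ 2 * hτ + (c * σ * n + σ ^ 2 * n ^ 2 + n ^ 2) * h2)).2
  exact (mul_eq_zero.1 h4).resolve_left hτ0

lemma den_mixed {α γ' x1 x2 y1 y2 x1' x2' y1' y2' m : F}
    (h' : nf d x1' x2' + nf d y1' y2' = 0)
    (hp : α * γ' + (x1 * x2' + x2 * x1') + (y1 * y2' + y2 * y1') = 0)
    (e1 : x1' = m * (α * y1)) (e2 : x2' = m * (α * y2))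
    (e3 : γ' = m * (y1 * x2 + y2 * x1 + τ * nf d y1 y2)) : x1' = 0 ∧ x2' = 0 := by
  have h2 : (2 : F) = 0 := CharTwo.two_eq_zero
  refine den_key hd hτ0 hτ (z1 := y1') (z2 := y2') ?_ ?_
  · linear_combination h' - nf d x1' x2' * h2
  · subst e1 e2 e3
    unfold nf at *
    linear_combination (m * α) * hp - (m ^ 2 * α ^ 2 * (y1 * x2 + y2 * x1 +
      τ * (y1 ^ 2 + y1 * y2 + d * y2 ^ 2))) * h2

lemma cc_inj {α γ x1 x2 y1 y2 α' γ' x1' x2' y1' y2' m : F}
    (h : α * γ + nf d x1 x2 + nf d y1 y2 = 0) (h' : α' * γ' + nf d x1' x2' + nf d y1' y2' = 0)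
    (h0 : ¬ (α = 0 ∧ γ = 0 ∧ x1 = 0 ∧ x2 = 0)) (h0' : ¬ (α' = 0 ∧ γ' = 0 ∧ x1' = 0 ∧ x2' = 0))
    (hp : α * γ' + α' * γ + (x1 * x2' + x2 * x1') + (y1 * y2' + y2 * y1') = 0)
    (hc : cc d τ α' γ' x1' x2' y1' y2' = m • cc d τ α γ x1 x2 y1 y2) :
    ∃ l, α' = l * α ∧ γ' = l * γ ∧ x1' = l * x1 ∧ x2' = l * x2 ∧ y1' = l * y1 ∧ y2' = l * y2 := by
  have h2 : (2 : F) = 0 := CharTwo.two_eq_zero
  have e1 := congrFun hc 0
  have e2 := congrFun hc 1
  have e3 := congrFun hc 2
  by_cases hα : α = 0
  · by_cases hα' : α' = 0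
    · subst hα hα'
      simp only [cc, if_true, Pi.smul_apply, smul_eq_mul, Matrix.cons_val_zero,
        Matrix.cons_val_one, Matrix.cons_val] at e1 e2 e3
      subst e1 e2 e3
      obtain ⟨a1, a2⟩ := hd (y1' - m * y1) (y2' - m * y2) (by
        unfold nf at *
        linear_combination h' + m ^ 2 * h - m * hp +
          (m ^ 2 * x1 * x2 - m ^ 2 * (x1 ^ 2 + x1 * x2 + d * x2 ^ 2) - m * y1 * y1' -
            d * m * y2 * y2') * h2)
      exact ⟨m, by simp, rfl, rfl, rfl, by linear_combination a1, by linear_combination a2⟩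
    · exfalso
      subst hα
      by_cases hy' : y1' = 0 ∧ y2' = 0
      · simp only [cc, if_true, if_neg hα', if_pos hy', Pi.smul_apply, smul_eq_mul,
          Matrix.cons_val_zero, Matrix.cons_val_one, Matrix.cons_val] at e1 e2 e3
        have hm : m ≠ 0 := by rintro rfl; simp at e3
        have a1 : x1 = 0 := (mul_eq_zero.1 e1.symm).resolve_left hm
        have a2 : x2 = 0 := (mul_eq_zero.1 e2.symm).resolve_left hm
        obtain ⟨rfl, rfl⟩ := hy'
        subst a1 a2
        apply h0
        simpa [hα'] using hp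
      · simp only [cc, if_true, if_neg hα', if_neg hy', Pi.smul_apply, smul_eq_mul,
          Matrix.cons_val_zero, Matrix.cons_val_one, Matrix.cons_val] at e1 e2 e3
        have hm : m ≠ 0 := by
          rintro rfl
          simp only [zero_mul, mul_eq_zero, hα', false_or] at e1 e2
          exact hy' ⟨e1, e2⟩
        obtain ⟨a1, a2⟩ := den_mixed hd hτ0 hτ (α := α') (γ' := γ) (x1 := x1') (x2 := x2')
          (y1 := y1') (y2 := y2') (x1' := x1) (x2' := x2) (y1' := y1) (y2' := y2) (m := m⁻¹)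
          (by linear_combination h) (by linear_combination hp) (by rw [e1]; field_simp)
          (by rw [e2]; field_simp) (by rw [e3]; field_simp)
        subst a1 a2
        simp only [mul_zero, mul_eq_zero, hα', false_or] at e1 e2
        exact hy' ⟨e1, e2⟩
  · by_cases hα' : α' = 0
    · exfalso
      subst hα'
      by_cases hy : y1 = 0 ∧ y2 = 0
      · simp only [cc, if_true, if_neg hα, if_pos hy, Pi.smul_apply, smul_eq_mul,
          Matrix.cons_val_zero, Matrix.cons_val_one, Matrix.cons_val, mul_zero] at e1 e2 e3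
        obtain ⟨rfl, rfl⟩ := hy
        subst e1 e2
        apply h0'
        simpa [hα] using hp
      · simp only [cc, if_true, if_neg hα, if_neg hy, Pi.smul_apply, smul_eq_mul,
          Matrix.cons_val_zero, Matrix.cons_val_one, Matrix.cons_val] at e1 e2 e3
        obtain ⟨a1, a2⟩ := den_mixed hd hτ0 hτ (α := α) (γ' := γ') (x1 := x1) (x2 := x2)
          (y1 := y1) (y2 := y2) (x1' := x1') (x2' := x2') (y1' := y1') (y2' := y2') (m := m)
          (by linear_combination h') (by linear_combination hp) e1 e2 e3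
        have hm : m = 0 := by
          by_contra hm
          rw [a1] at e1
          rw [a2] at e2
          simp only [zero_eq_mul, hm, hα, false_or, mul_eq_zero] at e1 e2
          exact hy ⟨e1, e2⟩
        apply h0'
        exact ⟨rfl, by rw [e3, hm, zero_mul], a1, a2⟩
    · have hN : nf d (α' * x1 + α * x1') (α' * x2 + α * x2') =
          nf d (α' * y1 + α * y1') (α' * y2 + α * y2') := by
        unfold nf at *
        linear_combination α' ^ 2 * h + α ^ 2 * h' + α * α' * hp +
          (α * α' * (x1 * x1' + d * x2 * x2') - α * α' * (y1 * y1' + d * y2 * y2') -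
            α * α' * (α' * γ + α * γ') - α * α' * (y1 * y2' + y2 * y1') -
            α' ^ 2 * (y1 ^ 2 + y1 * y2 + d * y2 ^ 2) -
            α ^ 2 * (y1' ^ 2 + y1' * y2' + d * y2' ^ 2)) * h2
      have hY : α' * y1 + α * y1' = 0 ∧ α' * y2 + α * y2' = 0 := by
        by_cases hy : y1 = 0 ∧ y2 = 0
        · by_cases hy' : y1' = 0 ∧ y2' = 0
          · simp [hy.1, hy.2, hy'.1, hy'.2]
          · exfalso
            simp only [cc, if_neg hα, if_neg hα', if_pos hy, if_neg hy', Pi.smul_apply,
              smul_eq_mul, Matrix.cons_val_zero, Matrix.cons_val_one, Matrix.cons_val,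
              mul_zero] at e1 e2
            exact hy' ⟨(mul_eq_zero.1 e1).resolve_left hα', (mul_eq_zero.1 e2).resolve_left hα'⟩
        · by_cases hy' : y1' = 0 ∧ y2' = 0
          · exfalso
            simp only [cc, if_neg hα, if_neg hα', if_neg hy, if_pos hy', Pi.smul_apply,
              smul_eq_mul, Matrix.cons_val_zero, Matrix.cons_val_one, Matrix.cons_val] at e1 e2 e3
            have hm : m ≠ 0 := by rintro rfl; simp at e3
            simp only [zero_eq_mul, hm, hα, false_or, mul_eq_zero] at e1 e2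
            exact hy ⟨e1, e2⟩
          · simp only [cc, if_neg hα, if_neg hα', if_neg hy, if_neg hy', Pi.smul_apply,
              smul_eq_mul, Matrix.cons_val_zero, Matrix.cons_val_one, Matrix.cons_val] at e1 e2 e3
            obtain ⟨μ, rfl⟩ : ∃ μ, m = μ * α' / α := ⟨m * α / α', by field_simp⟩
            have b1 : y1' = μ * y1 := by
              field_simp at e1
              linear_combination e1
            have b2 : y2' = μ * y2 := by
              field_simp at e2
              linear_combination e2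
            have hμ : μ ≠ 0 := by
              rintro rfl
              exact hy' ⟨by rw [b1, zero_mul], by rw [b2, zero_mul]⟩
            subst b1 b2
            refine den_key hd hτ0 hτ hN ?_
            unfold nf at *
            field_simp at e3
            linear_combination (α' + α * μ) * e3 + ((α' + α * μ) * (α' * (y1 * x2 + y2 * x1) -
              α * μ * τ * (y1 ^ 2 + y1 * y2 + d * y2 ^ 2))) * h2
      have hX := hd _ _ (by rw [hN, hY.1, hY.2]; simp [nf])
      have c1 : x1' = α' / α * x1 := by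
        field_simp
        linear_combination hX.1 - α' * x1 * h2
      have c2 : x2' = α' / α * x2 := by
        field_simp
        linear_combination hX.2 - α' * x2 * h2
      have c3 : y1' = α' / α * y1 := by
        field_simp
        linear_combination hY.1 - α' * y1 * h2
      have c4 : y2' = α' / α * y2 := by
        field_simp
        linear_combination hY.2 - α' * y2 * h2
      refine ⟨α' / α, by field_simp, ?_, c1, c2, c3, c4⟩
      have c5 : α * γ' + α' * γ = 0 := by
        rw [c1, c2, c3, c4] at hp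
        linear_combination hp - (α' / α * (x1 * x2 + y1 * y2)) * h2
      field_simp
      linear_combination c5 - α' * γ * h2

end

lemma cc_smul (d τ α γ x1 x2 y1 y2 : F) {l : F} (hl : l ≠ 0) :
    ∃ m : F, cc d τ (l * α) (l * γ) (l * x1) (l * x2) (l * y1) (l * y2) =
      m • cc d τ α γ x1 x2 y1 y2 := by
  unfold cc
  by_cases a : α = 0
  · refine ⟨l, ?_⟩
    rw [if_pos a, if_pos (by rw [a, mul_zero])]
    funext i; fin_cases i <;> simp
  · rw [if_neg a, if_neg (mul_ne_zero hl a)]
    by_cases b : y1 = 0 ∧ y2 = 0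
    · refine ⟨1, ?_⟩
      rw [if_pos b, if_pos (by rw [b.1, b.2]; simp), one_smul]
    · refine ⟨l ^ 2, ?_⟩
      rw [if_neg b, if_neg (by simpa [hl] using b)]
      funext i; fin_cases i <;> simp [nf] <;> ring

lemma col_three_big [Finite F] [CharP F 2] {σ : F} (h0 : σ ≠ 0) (h1 : σ ≠ 1) : Col F 3 := by
  obtain ⟨d, hd⟩ := exists_aniso (F := F)
  have h2 : (2 : F) = 0 := CharTwo.two_eq_zero
  have hτ : (σ + σ⁻¹) * σ = σ ^ 2 + 1 := by field_simp
  have hτ0 : σ + σ⁻¹ ≠ 0 := by
    intro h
    rw [h, zero_mul] at hτ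
    have : (σ - 1) ^ 2 = 0 := by linear_combination -hτ - σ * h2
    exact h1 (sub_eq_zero.1 (pow_eq_zero_iff two_ne_zero |>.1 this))
  have hform : ∀ s t : Fin 3 → F, s ⬝ᵥ t = 0 → s 0 * t 0 +
      nf d (t 2 + d * s 2 + s 1) (t 1 + s 1 + s 2 + s 2) +
      nf d (t 2 + d * s 2) (t 1 + s 1 + s 2) = 0 := by
    intro s t h
    simp only [dotProduct, Fin.sum_univ_three] at h
    have : nf d (t 2 + d * s 2 + s 1) (t 1 + s 1 + s 2 + s 2) =
        nf d (t 2 + d * s 2) (t 1 + s 1 + s 2) + nf d (s 1) (s 2) +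
        ((t 2 + d * s 2) * s 2 + (t 1 + s 1 + s 2) * s 1) := by
      unfold nf
      linear_combination ((t 2 + d * s 2) * s 1 + d * (t 1 + s 1 + s 2) * s 2) * h2
    rw [this]
    generalize nf d (t 2 + d * s 2) (t 1 + s 1 + s 2) = n
    unfold nf
    linear_combination h + (n + s 1 ^ 2 + s 1 * s 2 + d * s 2 ^ 2) * h2
  have hne : ∀ s t : Fin 3 → F, s ⬝ᵥ t = 0 → ¬ (s = 0 ∧ t = 0) → ¬ (s 0 = 0 ∧ t 0 = 0 ∧
      t 2 + d * s 2 + s 1 = 0 ∧ t 1 + s 1 + s 2 + s 2 = 0) := by
    rintro s t h hn ⟨a1, a2, a3, a4⟩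
    have h3 := hform s t h
    rw [a1, a3, a4] at h3
    obtain ⟨b1, b2⟩ := hd (t 2 + d * s 2) (t 1 + s 1 + s 2) (by simpa [nf] using h3)
    have c1 : s 1 = 0 := by linear_combination a3 - b1
    have c2 : s 2 = 0 := by linear_combination a4 - b2
    apply hn
    refine ⟨?_, ?_⟩ <;> funext i <;> fin_cases i
    · exact a1
    · exact c1
    · exact c2
    · exact a2
    · show t 1 = 0
      linear_combination b2 - c1 - c2
    · show t 2 = 0
      linear_combination b1 - d * c2
  refine ⟨fun s t => cc d (σ + σ⁻¹) (s 0) (t 0) (t 2 + d * s 2 + s 1) (t 1 + s 1 + s 2 + s 2)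
    (t 2 + d * s 2) (t 1 + s 1 + s 2), ?_, ?_, ?_⟩
  · intro s t h hn hc
    have e1 := congrFun hc 0
    have e2 := congrFun hc 1
    have e3 := congrFun hc 2
    simp only [cc] at e1 e2 e3
    split_ifs at e1 e2 e3 with a b
    · exact hne s t h hn ⟨a, e3, e1, e2⟩
    · exact one_ne_zero e3
    · exact b ⟨(mul_eq_zero.1 e1).resolve_left a, (mul_eq_zero.1 e2).resolve_left a⟩
  · intro s t l _ hl
    obtain ⟨m, hm⟩ := cc_smul d (σ + σ⁻¹) (s 0) (t 0) (t 2 + d * s 2 + s 1)
      (t 1 + s 1 + s 2 + s 2) (t 2 + d * s 2) (t 1 + s 1 + s 2) hl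
    refine ⟨m, ?_⟩
    rw [← hm]
    simp only [Pi.smul_apply, smul_eq_mul]
    congr 1 <;> ring
  · intro s t s' t' m h h' hn hn' hp hc
    simp only [dotProduct, Fin.sum_univ_three] at hp
    obtain ⟨l, a1, a2, a3, a4, a5, a6⟩ := cc_inj hd hτ0 hτ (hform s t h) (hform s' t' h')
      (hne s t h hn) (hne s' t' h' hn') (by
        linear_combination hp + ((t 2 + d * s 2) * (t' 1 + s' 1 + s' 2) +
          (t 1 + s 1 + s 2) * (t' 2 + d * s' 2) + d * s 2 * s' 2 + s 1 * s' 1 + s 1 * s' 2 +
          s 2 * s' 1) * h2) hc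
    have c1 : s' 1 = l * s 1 := by linear_combination a3 - a5
    have c2 : s' 2 = l * s 2 := by linear_combination a4 - a6
    refine ⟨l, ?_, ?_⟩ <;> funext i <;> fin_cases i
    · exact a1
    · exact c1
    · exact c2
    · exact a2
    · show t' 1 = l * t 1
      linear_combination a6 - c1 - c2
    · show t' 2 = l * t 2
      linear_combination a5 - d * c2

lemma col_three [Finite F] [CharP F 2] : Col F 3 := by
  by_cases h : ∃ σ : F, σ ≠ 0 ∧ σ ≠ 1
  · obtain ⟨σ, h0, h1⟩ := h
    exact col_three_big h0 h1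
  · push Not at h
    have : Fintype F := Fintype.ofFinite F
    have hc : Fintype.card F = 2 := by
      classical
      have : (Finset.univ : Finset F) = {0, 1} := by
        ext x
        by_cases hx : x = 0
        · simp [hx]
        · simp [h x hx]
      rw [← Finset.card_univ, this, Finset.card_pair zero_ne_one]
    exact col_three_two.map (ZMod.ringEquivOfPrime F Nat.prime_two hc)

theorem char_two {V : Type*} [AddCommGroup V] [Module F V] {Q : QuadraticForm F V} [Finite F]
    [CharP F 2] [FiniteDimensional F V] (hQ : Q.radical = ⊥) {r : ℕ} (hr : HasWittIndex Q r)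
    (h2 : 2 ≤ r) : HasOvoidPartition Q ↔ (finrank F V = 2 * r ∧ r ≤ 3) := by
  refine ⟨char_two_neg hQ hr h2, fun h => partition_of_col hQ hr h.1 ?_⟩
  obtain rfl | rfl : r = 2 ∨ r = 3 := by omega
  · exact col_two
  · exact col_three

end Pool.Agent.MP_da2386_co

end
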