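import Pool.Agent.MP_da2386_co.Defs

section

open Module QuadraticMap

namespace Pool.Agent.MP_da2386_co

variable {F V : Type*} [Field F] [AddCommGroup V] [Module F V] {Q : QuadraticForm F V}

lemma q_add (Q : QuadraticForm F V) (x y : V) : Q (x + y) = Q x + Q y + polar Q x y := by
  simp [polar]

lemma TotSing.polar {W : Submodule F V} (h : TotSing Q W) {x y : V} (hx : x ∈ W) (hy : y ∈ W) :
    polar Q x y = 0 := by
  have := q_add Q x y
  rw [h _ (W.add_mem hx hy), h _ hx, h _ hy] at this
  simpa using this.symm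

lemma totSing_span {x : V} (hx : Q x = 0) : TotSing Q (F ∙ x) := by
  intro v hv
  obtain ⟨a, rfl⟩ := Submodule.mem_span_singleton.1 hv
  rw [QuadraticMap.map_smul, hx, smul_zero]

lemma TotSing.sup_span {W : Submodule F V} (h : TotSing Q W) {x : V} (hx : Q x = 0)
    (hp : ∀ w ∈ W, QuadraticMap.polar Q w x = 0) : TotSing Q (W ⊔ F ∙ x) := by
  intro v hv
  obtain ⟨w, hw, z, hz, rfl⟩ := Submodule.mem_sup.1 hv
  obtain ⟨a, rfl⟩ := Submodule.mem_span_singleton.1 hz
  rw [q_add, h w hw, QuadraticMap.map_smul, hx, polar_smul_right, hp w hw]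
  simp

lemma exists_gen [FiniteDimensional F V] {W : Submodule F V} (h : TotSing Q W) :
    ∃ G, IsGenerator Q G ∧ W ≤ G := by
  obtain ⟨G, h1, h2⟩ := exists_maximal_ge_of_wellFoundedGT (TotSing Q) W h
  exact ⟨G, h2, h1⟩

lemma IsGenerator.mem {G : Submodule F V} (hG : IsGenerator Q G) {x : V} (hx : Q x = 0)
    (hp : ∀ w ∈ G, polar Q w x = 0) : x ∈ G := by
  have h1 : TotSing Q (G ⊔ F ∙ x) := TotSing.sup_span hG.1 hx hp
  have h2 := hG.2 h1 le_sup_left
  exact h2 (Submodule.mem_sup_right (Submodule.mem_span_singleton_self x))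

lemma eq_span_of_finrank {P : Submodule F V} (hP : finrank F P = 1) {x : V} (hx : x ∈ P)
    (h0 : x ≠ 0) : P = F ∙ x := by
  have : FiniteDimensional F P := Module.finite_of_finrank_eq_succ hP
  symm
  apply Submodule.eq_of_le_of_finrank_eq ((Submodule.span_singleton_le_iff_mem _ _).2 hx)
  rw [finrank_span_singleton h0, hP]

lemma isPoint_span {x : V} (hx : Q x = 0) (h0 : x ≠ 0) : IsPoint Q (F ∙ x) :=
  ⟨totSing_span hx, finrank_span_singleton h0⟩

lemma exists_ne_zero_of_finrank {P : Submodule F V} (hP : finrank F P = 1) :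
    ∃ x ∈ P, x ≠ 0 := by
  apply Submodule.exists_mem_ne_zero_of_ne_bot
  rintro rfl
  simp at hP

/-- two different points of an ovoid are not perpendicular -/
lemma IsOvoid.eq_of_polar [FiniteDimensional F V] {O : Set (Submodule F V)} (hO : IsOvoid Q O)
    {P P' : Submodule F V} (hP : P ∈ O) (hP' : P' ∈ O) {x y : V} (hx : x ∈ P) (hy : y ∈ P')
    (hx0 : x ≠ 0) (hy0 : y ≠ 0) (h : polar Q x y = 0) : P = P' := by
  have e1 := eq_span_of_finrank (hO.1 P hP).2 hx hx0
  have e2 := eq_span_of_finrank (hO.1 P' hP').2 hy hy0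
  have h1 : TotSing Q (P ⊔ F ∙ y) := by
    refine TotSing.sup_span (hO.1 P hP).1 ((hO.1 P' hP').1 y hy) ?_
    intro w hw
    rw [e1] at hw
    obtain ⟨a, rfl⟩ := Submodule.mem_span_singleton.1 hw
    rw [polar_smul_left, h, smul_zero]
  obtain ⟨G, hG, hle⟩ := exists_gen h1
  refine (hO.2 G hG).unique ⟨hP, le_sup_left.trans hle⟩ ⟨hP', ?_⟩
  rw [e2]; exact le_sup_right.trans hle

lemma exists_polar_one (hQ : Q.radical = ⊥) {x : V} (hx : Q x = 0) (h0 : x ≠ 0) :
    ∃ v, polar Q v x = 1 := by
  by_contra hc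
  push Not at hc
  apply h0
  have : x ∈ Q.radical := by
    refine ⟨hx, ?_⟩
    ext v
    by_contra hv
    simp only [polarBilin_apply_apply, LinearMap.zero_apply] at hv
    apply hc ((polar Q x v)⁻¹ • v)
    rw [polar_smul_left, polar_comm Q v x, smul_eq_mul, inv_mul_cancel₀ hv]
  rwa [hQ, Submodule.mem_bot] at this

/-- every class modulo a generator off the hyperplane of the ovoid point contains an ovoid point -/
lemma IsOvoid.exists_class [FiniteDimensional F V] {O : Set (Submodule F V)} (hO : IsOvoid Q O)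
    {G : Submodule F V} (hG : IsGenerator Q G) {P₀ : Submodule F V} (hP₀ : P₀ ∈ O) (hle : P₀ ≤ G)
    {y₀ : V} (hy₀ : y₀ ∈ P₀) (hy0 : y₀ ≠ 0) {v : V} (hv : polar Q v y₀ = 1) :
    ∃ P ∈ O, P ≠ P₀ ∧ ∃ y ∈ P, y - v ∈ G := by
  have hQ0 : Q y₀ = 0 := (hO.1 _ hP₀).1 _ hy₀
  set w := v - Q v • y₀ with hw
  have hQw : Q w = 0 := by
    rw [hw, sub_eq_add_neg, ← neg_smul, q_add, QuadraticMap.map_smul, hQ0, polar_smul_right, hv]
    simp
  have hwy : polar Q w y₀ = 1 := by
    rw [hw, polar_sub_left, polar_smul_left, hv, polar_self, hQ0]; simp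
  let H : Submodule F V := G ⊓ LinearMap.ker (Q.polarBilin w)
  have hH : TotSing Q H := fun u hu => hG.1 u hu.1
  have hHw : ∀ u ∈ H, polar Q u w = 0 := by
    intro u hu
    rw [polar_comm]; exact hu.2
  obtain ⟨M, hM, hleM⟩ := exists_gen (hH.sup_span hQw hHw)
  obtain ⟨P, ⟨hP, hPM⟩, -⟩ := hO.2 M hM
  obtain ⟨y, hy, hyne⟩ := exists_ne_zero_of_finrank (hO.1 P hP).2
  have hwM : w ∈ M := hleM (Submodule.mem_sup_right (Submodule.mem_span_singleton_self w))
  have hyw : polar Q y w = 0 := TotSing.polar hM.1 (hPM hy) hwM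
  have hQy : Q y = 0 := (hO.1 P hP).1 y hy
  set l := polar Q y y₀ with hl
  have hmem : y - l • w ∈ G := by
    apply hG.mem
    · rw [sub_eq_add_neg, ← neg_smul, q_add, QuadraticMap.map_smul, hQy, hQw, polar_smul_right,
        hyw]
      simp
    · intro u hu
      have h1 : u - polar Q w u • y₀ ∈ H := by
        refine ⟨G.sub_mem hu (G.smul_mem _ (hle hy₀)), ?_⟩
        simp only [SetLike.mem_coe, LinearMap.mem_ker, polarBilin_apply_apply]
        rw [polar_sub_right, polar_smul_right, hwy]; simp
      have h2 : polar Q (u - polar Q w u • y₀) y = 0 :=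
        TotSing.polar hM.1 (hleM (Submodule.mem_sup_left h1)) (hPM hy)
      rw [polar_sub_left, polar_smul_left, polar_comm Q y₀ y, ← hl] at h2
      rw [polar_sub_right, polar_smul_right, polar_comm Q u w]
      simp only [smul_eq_mul] at h2 ⊢
      linear_combination h2
  have hPne : P ≠ P₀ := by
    rintro rfl
    have e := eq_span_of_finrank (hO.1 P hP).2 hy hyne
    rw [e] at hy₀
    obtain ⟨a, rfl⟩ := Submodule.mem_span_singleton.1 hy₀
    rw [polar_smul_right, polar_comm, hyw] at hwy
    simp at hwy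
  have hl0 : l ≠ 0 := fun h => hPne (hO.eq_of_polar hP hP₀ hy hy₀ hyne hy0 h)
  refine ⟨P, hP, hPne, l⁻¹ • y, P.smul_mem _ hy, ?_⟩
  have : l⁻¹ • y - v = l⁻¹ • (y - l • w) - Q v • y₀ := by
    rw [smul_sub, smul_smul, inv_mul_cancel₀ hl0, one_smul, hw]; abel
  rw [this]
  exact G.sub_mem (G.smul_mem _ hmem) (G.smul_mem _ (hle hy₀))

/-- the size of an ovoid, lower bound -/
lemma IsOvoid.card_ge [Finite F] [FiniteDimensional F V] (hQ : Q.radical = ⊥)
    {O : Set (Submodule F V)} (hO : IsOvoid Q O) {G : Submodule F V} (hG : IsGenerator Q G) :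
    Nat.card F ^ (finrank F V - finrank F G - 1) + 1 ≤ O.ncard := by
  have : Finite V := Module.finite_of_finite F
  obtain ⟨P₀, ⟨hP₀, hle⟩, -⟩ := hO.2 G hG
  obtain ⟨y₀, hy₀, hy0⟩ := exists_ne_zero_of_finrank (hO.1 P₀ hP₀).2
  obtain ⟨v₀, hv₀⟩ := exists_polar_one hQ ((hO.1 _ hP₀).1 _ hy₀) hy0
  obtain ⟨W, hW⟩ := G.exists_isCompl
  let f : W →ₗ[F] F := (Q.polarBilin y₀).comp W.subtype
  have hdim : finrank F V - finrank F G - 1 ≤ finrank F (LinearMap.ker f) := by
    have h1 := f.finrank_range_add_finrank_ker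
    have h2 := Submodule.finrank_add_eq_of_isCompl hW
    have h3 : finrank F (LinearMap.range f) ≤ 1 := by
      simpa using (LinearMap.range f).finrank_le
    omega
  have hex : ∀ k : LinearMap.ker f, ∃ P ∈ O, P ≠ P₀ ∧ ∃ y ∈ P, y - (v₀ + (k.1 : V)) ∈ G := by
    intro k
    apply hO.exists_class hG hP₀ hle hy₀ hy0
    have : polar Q y₀ (k.1 : V) = 0 := k.2
    rw [polar_add_left, hv₀, polar_comm, this, add_zero]
  choose P hP hne y hy hyG using hex
  have hy1 : ∀ k, polar Q (y k) y₀ = 1 := by
    intro k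
    have h1 : polar Q (y k - (v₀ + (k.1 : V))) y₀ = 0 := TotSing.polar hG.1 (hyG k) (hle hy₀)
    have : polar Q y₀ (k.1 : V) = 0 := k.2
    rw [polar_sub_left, polar_add_left, hv₀, polar_comm Q (k.1 : V), this] at h1
    linear_combination h1
  have hinj : Function.Injective P := by
    intro k k' hk
    have hne0 : y k ≠ 0 := by
      intro h
      have := hy1 k
      rw [h] at this
      simp at this
    have e := eq_span_of_finrank (hO.1 _ (hP k)).2 (hy k) hne0
    have h2 := hy k'
    rw [← hk, e] at h2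
    obtain ⟨a, ha⟩ := Submodule.mem_span_singleton.1 h2
    have h3 := hy1 k'
    rw [← ha, polar_smul_left, hy1 k, smul_eq_mul, mul_one] at h3
    rw [h3, one_smul] at ha
    have h4 : ((k'.1 : V) - (k.1 : V)) ∈ G := by
      have := G.sub_mem (hyG k) (hyG k')
      rw [← ha] at this
      convert this using 1
      abel
    have h5 : ((k'.1 : V) - (k.1 : V)) ∈ W := W.sub_mem k'.1.2 k.1.2
    have h6 := (Submodule.disjoint_def.1 hW.disjoint) _ h4 h5
    exact Subtype.ext (Subtype.ext (sub_eq_zero.1 h6).symm)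
  have h7 : Nat.card (LinearMap.ker f) ≤ (O \ {P₀}).ncard := by
    rw [← Set.ncard_univ]
    refine Set.ncard_le_ncard_of_injOn P (fun k _ => ⟨hP k, hne k⟩) hinj.injOn (Set.toFinite _)
  have h8 := Set.ncard_sdiff_singleton_add_one hP₀ (Set.toFinite O)
  rw [Module.natCard_eq_pow_finrank (K := F)] at h7
  have h9 : Nat.card F ^ (finrank F V - finrank F G - 1) ≤
      Nat.card F ^ finrank F (LinearMap.ker f) := Nat.pow_le_pow_right Nat.card_pos hdim
  omega

end Pool.Agent.MP_da2386_co

end

section

open Module QuadraticMap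

namespace Pool.Agent.MP_da2386_co

variable {F V : Type*} [Field F] [AddCommGroup V] [Module F V] {Q : QuadraticForm F V}

open Classical in
/-- the perpendicularity kernel -/
noncomputable def perp (Q : QuadraticForm F V) (x y : V) : F := if polar Q x y = 0 then 1 else 0

/-- `perp` has rank at most `card κ` on singular vectors -/
def PerpFactor (Q : QuadraticForm F V) (κ : Type) [Fintype κ] : Prop :=
  ∃ φ ψ : κ → V → F, ∀ x y, Q x = 0 → Q y = 0 → perp Q x y = ∑ k, φ k x * ψ k y

/-- an ovoid whose size reaches the rank resolves the kernel -/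
lemma IsOvoid.resolve [FiniteDimensional F V] {O : Finset (Submodule F V)}
    (hO : IsOvoid Q (O : Set (Submodule F V))) {κ : Type} [Fintype κ] (hf : PerpFactor Q κ)
    (hc : Fintype.card κ ≤ O.card) (rep : Submodule F V → V)
    (hrep : ∀ P ∈ O, rep P ∈ P ∧ rep P ≠ 0) {a b : V} (ha : Q a = 0) (hb : Q b = 0) :
    perp Q a b = ∑ P ∈ O, perp Q a (rep P) * perp Q (rep P) b := by
  classical
  obtain ⟨φ, ψ, h⟩ := hf
  have hs : ∀ P ∈ O, Q (rep P) = 0 := fun P hP => (hO.1 P hP).1 _ (hrep P hP).1
  let A : Matrix O κ F := fun P k => φ k (rep P)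
  let B : Matrix κ O F := fun k P => ψ k (rep P)
  have hAB : A * B = 1 := by
    ext P P'
    rw [Matrix.mul_apply]
    simp only [A, B]
    rw [← h _ _ (hs _ P.2) (hs _ P'.2), perp, Matrix.one_apply]
    by_cases e : P = P'
    · subst e
      rw [if_pos rfl, if_pos]
      rw [polar_self, hs _ P.2]; simp
    · rw [if_neg e, if_neg]
      intro hp
      exact e (Subtype.ext (hO.eq_of_polar P.2 P'.2 (hrep _ P.2).1 (hrep _ P'.2).1
        (hrep _ P.2).2 (hrep _ P'.2).2 hp))
  have hle : O.card ≤ Fintype.card κ := by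
    have h1 := Matrix.rank_mul_le_left A B
    rw [hAB, Matrix.rank_one, Fintype.card_coe] at h1
    exact h1.trans (Matrix.rank_le_card_width A)
  have hBA : B * A = 1 :=
    (Matrix.mul_eq_one_comm_of_card_eq _ _ _ (by rw [Fintype.card_coe]; omega)).1 hAB
  rw [← Finset.sum_coe_sort O, h a b ha hb]
  have h2 : ∀ P : O, perp Q a (rep P) * perp Q (rep P) b =
      ∑ k, ∑ k', φ k a * (B k P * A P k') * ψ k' b := by
    intro P
    rw [h a _ ha (hs _ P.2), h _ b (hs _ P.2) hb, Finset.sum_mul_sum]
    refine Finset.sum_congr rfl fun k _ => Finset.sum_congr rfl fun k' _ => ?_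
    simp only [A, B]; ring
  simp_rw [h2]
  rw [Finset.sum_comm]
  refine Finset.sum_congr rfl fun k _ => ?_
  rw [Finset.sum_comm]
  simp_rw [← Finset.sum_mul, ← Finset.mul_sum, ← Matrix.mul_apply, hBA, Matrix.one_apply]
  simp

/-- Chevalley-Warning for the singular vectors perpendicular to two vectors -/
lemma cw [Fintype F] [FiniteDimensional F V] (hn : 5 ≤ finrank F V) (a b : V) :
    ((Nat.card {v : V // Q v = 0 ∧ polar Q a v = 0 ∧ polar Q v b = 0} : ℕ) : F) = 0 := by
  classical
  obtain ⟨p, hp⟩ := CharP.exists F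
  let e := Module.finBasis F V
  obtain ⟨β, hβ⟩ := LinearMap.BilinMap.toQuadraticMap_surjective (R := F) Q
  let n := finrank F V
  let lin : (V →ₗ[F] F) → MvPolynomial (Fin n) F := fun l =>
    ∑ i, MvPolynomial.C (l (e i)) * MvPolynomial.X i
  have hlin : ∀ l (x : Fin n → F), MvPolynomial.eval x (lin l) = l (e.equivFun.symm x) := by
    intro l x
    simp [lin, mul_comm]
  have hdeg : ∀ l, (lin l).totalDegree ≤ 1 := by
    intro l
    refine (MvPolynomial.totalDegree_finsetSum _ _).trans (Finset.sup_le fun i _ => ?_)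
    refine (MvPolynomial.totalDegree_mul _ _).trans ?_
    simp [MvPolynomial.totalDegree_X]
  let f : Fin 3 → MvPolynomial (Fin n) F :=
    ![∑ i, MvPolynomial.X i * lin (β (e i)), lin (Q.polarBilin a), lin (Q.polarBilin b)]
  have hd0 : (∑ i, MvPolynomial.X i * lin (β (e i))).totalDegree ≤ 2 := by
    refine (MvPolynomial.totalDegree_finsetSum _ _).trans (Finset.sup_le fun i _ => ?_)
    refine (MvPolynomial.totalDegree_mul _ _).trans ?_
    have := hdeg (β (e i))
    rw [MvPolynomial.totalDegree_X]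
    omega
  have hsum : (∑ i, (f i).totalDegree) < Fintype.card (Fin n) := by
    have h1 := hdeg (Q.polarBilin a)
    have h2 := hdeg (Q.polarBilin b)
    simp only [Fin.sum_univ_three, f, Matrix.cons_val_zero, Matrix.cons_val_one,
      Matrix.cons_val_two, Matrix.head_cons, Matrix.tail_cons, Fintype.card_fin]
    omega
  have h : p ∣ Nat.card {x : Fin n → F // ∀ i, MvPolynomial.eval x (f i) = 0} := by
    rw [Nat.card_eq_fintype_card]
    convert char_dvd_card_solutions_of_fintype_sum_lt p hsum
  rw [CharP.cast_eq_zero_iff F p]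
  convert h using 1
  symm
  refine Nat.card_congr (e.equivFun.symm.toEquiv.subtypeEquiv fun x => ?_)
  have h0 : MvPolynomial.eval x (∑ i, MvPolynomial.X i * lin (β (e i))) =
      Q (e.equivFun.symm x) := by
    rw [← hβ, LinearMap.BilinMap.toQuadraticMap_apply]
    simp only [map_sum, map_mul, MvPolynomial.eval_X, hlin]
    generalize hy : e.equivFun.symm x = y
    conv_rhs => arg 1; rw [← hy, Basis.equivFun_symm_apply]
    simp
  rw [Fin.forall_fin_succ, Fin.forall_fin_two]
  simp only [f, Matrix.cons_val_zero, Matrix.cons_val_succ, Matrix.cons_val_one, h0, hlin,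
    polarBilin_apply_apply, LinearEquiv.coe_toEquiv, polar_comm Q b]

/-- no partition when the rank bound does not exceed the size of an ovoid -/
theorem no_partition [Fintype F] [FiniteDimensional F V] (hQ : Q.radical = ⊥)
    (hn : 5 ≤ finrank F V) {G : Submodule F V} (hG : IsGenerator Q G) {κ : Type} [Fintype κ]
    (hf : PerpFactor Q κ)
    (hc : Fintype.card κ ≤ Nat.card F ^ (finrank F V - finrank F G - 1) + 1) :
    ¬ HasOvoidPartition Q := by
  classical
  have : Finite V := Module.finite_of_finite F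
  have : Fintype V := Fintype.ofFinite V
  have : Fintype (Submodule F V) := Fintype.ofFinite _
  rintro ⟨S, hS, hdisj, hun⟩
  have hrep : ∀ P : Submodule F V, ∃ x, IsPoint Q P → x ∈ P ∧ x ≠ 0 := by
    intro P
    by_cases h : IsPoint Q P
    · obtain ⟨x, hx, h0⟩ := exists_ne_zero_of_finrank h.2
      exact ⟨x, fun _ => ⟨hx, h0⟩⟩
    · exact ⟨0, fun h' => absurd h' h⟩
  choose rep hrep using hrep
  have key : ∀ a b : V, Q a = 0 → Q b = 0 → perp Q a b = 0 →
      (∑ P ∈ Finset.univ.filter (IsPoint Q), perp Q a (rep P) * perp Q (rep P) b) = 0 := by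
    intro a b ha hb hab
    have hu : Finset.univ.filter (IsPoint Q) = S.toFinset.biUnion (fun O => O.toFinset) := by
      ext P
      have := Set.ext_iff.1 hun P
      simp only [Set.mem_sUnion, Set.mem_ofPred_eq] at this
      simp [← this]
    rw [hu, Finset.sum_biUnion]
    · refine Finset.sum_eq_zero fun O hO => ?_
      rw [Set.mem_toFinset] at hO
      have hO' : IsOvoid Q (O.toFinset : Set (Submodule F V)) := by simpa using hS O hO
      rw [← hO'.resolve hf ?_ rep (fun P hP => hrep P (hO'.1 P hP)) ha hb, hab]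
      rw [← Set.ncard_eq_toFinset_card']
      exact hc.trans ((hS O hO).card_ge hQ hG)
    · intro O hO O' hO' hne
      simp only [Set.coe_toFinset] at hO hO'
      exact Set.disjoint_toFinset.2 (hdisj hO hO' hne)
  have count : ∀ a b : V,
      ((Nat.card {v : V // Q v = 0 ∧ polar Q a v = 0 ∧ polar Q v b = 0} : ℕ) : F) =
      1 - ∑ P ∈ Finset.univ.filter (IsPoint Q), perp Q a (rep P) * perp Q (rep P) b := by
    intro a b
    rw [Nat.card_eq_fintype_card, Fintype.card_subtype]
    set T := Finset.univ.filter fun v : V => Q v = 0 ∧ polar Q a v = 0 ∧ polar Q v b = 0 with hT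
    have h0 : (0 : V) ∈ T := by simp [hT]
    rw [← Finset.card_erase_add_one h0,
      Finset.card_eq_sum_card_fiberwise (f := fun v => F ∙ v) (s := T.erase 0)
        (t := Finset.univ.filter (IsPoint Q))]
    · push_cast
      rw [add_comm, sub_eq_add_neg, ← Finset.sum_neg_distrib]
      congr 1
      refine Finset.sum_congr rfl fun P hP => ?_
      have hP' : IsPoint Q P := by simpa using hP
      obtain ⟨hx, hx0⟩ := hrep P hP'
      have e := eq_span_of_finrank hP'.2 hx hx0
      by_cases hc : polar Q a (rep P) = 0 ∧ polar Q (rep P) b = 0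
      · have : (T.erase 0).filter (fun v => (F ∙ v) = P) =
            (Finset.univ.erase (0 : F)).image (fun t => t • rep P) := by
          ext v
          simp only [hT, Finset.mem_filter, Finset.mem_erase, Finset.mem_univ, true_and,
            Finset.mem_image, and_true]
          constructor
          · rintro ⟨⟨hv0, -⟩, hv⟩
            have : v ∈ F ∙ rep P := by
              rw [← e, ← hv]; exact Submodule.mem_span_singleton_self v
            obtain ⟨t, rfl⟩ := Submodule.mem_span_singleton.1 this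
            exact ⟨t, fun h => hv0 (by rw [h, zero_smul]), rfl⟩
          · rintro ⟨t, ht, rfl⟩
            refine ⟨⟨smul_ne_zero ht hx0, hP'.1 _ (P.smul_mem _ hx), ?_, ?_⟩, ?_⟩
            · rw [polar_smul_right, hc.1, smul_zero]
            · rw [polar_smul_left, hc.2, smul_zero]
            · exact (eq_span_of_finrank hP'.2 (P.smul_mem _ hx) (smul_ne_zero ht hx0)).symm
        rw [this, Finset.card_image_of_injective _ (smul_left_injective F hx0),
          Finset.card_erase_of_mem (Finset.mem_univ _), Finset.card_univ,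
          Nat.cast_sub Fintype.card_pos, FiniteField.cast_card_eq_zero]
        simp [perp, hc.1, hc.2]
      · have : (T.erase 0).filter (fun v => (F ∙ v) = P) = ∅ := by
          rw [Finset.filter_eq_empty_iff]
          intro v hv hvP
          simp only [hT, Finset.mem_filter, Finset.mem_erase, Finset.mem_univ, true_and] at hv
          rw [← hvP] at hx
          obtain ⟨t, ht⟩ := Submodule.mem_span_singleton.1 hx
          apply hc
          rw [← hvP, ← ht, polar_smul_right, polar_smul_left, hv.2.2.1, hv.2.2.2]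
          simp
        rw [this]
        by_cases h1 : polar Q a (rep P) = 0
        · have h2 : polar Q (rep P) b ≠ 0 := fun h => hc ⟨h1, h⟩
          simp [perp, h2]
        · simp [perp, h1]
    · intro v hv
      simp only [hT, Finset.coe_erase, Finset.coe_filter, Finset.mem_univ, true_and,
        Set.mem_sdiff, Set.mem_ofPred_eq, Set.mem_singleton_iff] at hv ⊢
      exact isPoint_span hv.1.1 hv.2
  by_cases hex : ∃ a : V, a ≠ 0 ∧ Q a = 0
  · obtain ⟨a, ha0, ha⟩ := hex
    obtain ⟨v, hv⟩ := exists_polar_one hQ ha ha0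
    have hb : Q (v - Q v • a) = 0 := by
      rw [sub_eq_add_neg, ← neg_smul, q_add, QuadraticMap.map_smul, ha, polar_smul_right, hv]
      simp
    have hab : perp Q a (v - Q v • a) = 0 := by
      rw [perp, if_neg]
      rw [polar_sub_right, polar_smul_right, polar_self, ha, polar_comm, hv]; simp
    have h1 := count a (v - Q v • a)
    rw [cw hn, key a _ ha hb hab] at h1
    simp at h1
  · have h1 := count 0 0
    rw [cw hn, Finset.sum_eq_zero] at h1
    · simp at h1
    · intro P hP
      have hP' : IsPoint Q P := by simpa using hP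
      exact absurd ⟨rep P, (hrep P hP').2, hP'.1 _ (hrep P hP').1⟩ hex

/-- from a factorisation of the `(p-1)`-th power of the polar form to one of `perp` -/
lemma perpFactor_of_pow [Fintype F] {p h : ℕ} [Fact p.Prime] [CharP F p]
    (hq : Fintype.card F = p ^ h) {ι : Type} [Fintype ι] (φ ψ : ι → V → F)
    (H : ∀ x y, Q x = 0 → Q y = 0 → polar Q x y ^ (p - 1) = ∑ k, φ k x * ψ k y) :
    PerpFactor Q (Option (Fin h → ι)) := by
  classical
  refine ⟨fun o x => o.elim 1 fun f => -∏ j, φ (f j) x ^ p ^ (j : ℕ),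
    fun o y => o.elim 1 fun f => ∏ j, ψ (f j) y ^ p ^ (j : ℕ), fun x y hx hy => ?_⟩
  have h1 : perp Q x y = 1 - polar Q x y ^ (Fintype.card F - 1) := by
    unfold perp
    split_ifs with h0
    · rw [h0, zero_pow, sub_zero]
      have := Fintype.one_lt_card (α := F)
      omega
    · rw [FiniteField.pow_card_sub_one_eq_one _ h0, sub_self]
  have h2 : Fintype.card F - 1 = ∑ j : Fin h, (p - 1) * p ^ (j : ℕ) := by
    rw [hq, ← Finset.mul_sum, Fin.sum_univ_eq_sum_range (fun j => p ^ j) h, mul_comm]
    exact (geom_sum_mul_of_one_le (Fact.out : p.Prime).one_le h).symm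
  rw [h1, h2, ← Finset.prod_pow_eq_pow_sum, Fintype.sum_option]
  simp only [Option.elim_none, Option.elim_some, mul_one, pow_mul, H x y hx hy, sum_pow_char_pow]
  rw [Finset.prod_univ_sum, Fintype.piFinset_univ, sub_eq_add_neg, ← Finset.sum_neg_distrib]
  congr 1
  refine Finset.sum_congr rfl fun f _ => ?_
  rw [neg_mul, ← Finset.prod_mul_distrib]
  simp only [mul_pow]

end Pool.Agent.MP_da2386_co

end

section

open Module QuadraticMap

namespace Pool.Agent.MP_da2386_co

variable {F V : Type*} [Field F] [AddCommGroup V] [Module F V] {Q : QuadraticForm F V}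

lemma TotSing.polar_inj (hQ : Q.radical = ⊥) {G : Submodule F V} (hG : TotSing Q G) :
    Function.Injective (Q.polarBilin.comp G.subtype) := by
  rw [injective_iff_map_eq_zero]
  intro x hx
  have : (x : V) ∈ Q.radical := ⟨hG x x.2, hx⟩
  rw [hQ, Submodule.mem_bot] at this
  exact Subtype.ext this

lemma TotSing.two_mul_le [FiniteDimensional F V] (hQ : Q.radical = ⊥) {G : Submodule F V}
    (hG : TotSing Q G) : 2 * finrank F G ≤ finrank F V := by
  have h1 := Subspace.finrank_add_finrank_dualCoannihilator_eq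
    (LinearMap.range (Q.polarBilin.comp G.subtype))
  rw [LinearMap.finrank_range_of_inj (hG.polar_inj hQ)] at h1
  have h2 : G ≤ (LinearMap.range (Q.polarBilin.comp G.subtype)).dualCoannihilator := by
    intro v hv
    rw [Submodule.mem_dualCoannihilator]
    rintro _ ⟨x, rfl⟩
    exact hG.polar x.2 hv
  have h3 := Submodule.finrank_mono h2
  omega

/-- the square of the polar form has rank at most `C(n+1,2) - 1` on singular vectors -/
lemma sq_factor [FiniteDimensional F V] [NeZero (2 : F)] (hQ : Q.radical = ⊥)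
    (hn : 0 < finrank F V) :
    ∃ (ι : Type) (_ : Fintype ι) (φ ψ : ι → V → F),
      Fintype.card ι = (finrank F V + 1).choose 2 - 1 ∧
      ∀ x y, Q x = 0 → Q y = 0 → polar Q x y ^ 2 = ∑ k, φ k x * ψ k y := by
  classical
  have : Invertible (2 : F) := invertibleOfNonzero (NeZero.ne 2)
  obtain ⟨e, he⟩ := LinearMap.BilinForm.exists_orthogonal_basis (B := Q.polarBilin)
    ⟨fun x y => polar_comm Q x y⟩
  let i0 : Fin (finrank F V) := ⟨0, hn⟩
  let m : Sym2 (Fin (finrank F V)) → {x : V // Q x = 0} → F := fun k x =>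
    Sym2.lift ⟨fun i j => e.repr x i * e.repr x j, fun i j => mul_comm _ _⟩ k
  let ι := {k : Sym2 (Fin (finrank F V)) // ¬ k = s(i0, i0)}
  let W := Submodule.span F (Set.range fun k : ι => m k)
  have hexp : ∀ x y : V, polar Q x y = ∑ i, e.repr x i * polar Q (e i) y := by
    intro x y
    conv_lhs => rw [← e.sum_repr x, ← polarBilin_apply_apply, map_sum, LinearMap.sum_apply]
    simp
  have hdiag : ∀ (x : V) i, polar Q (e i) x = e.repr x i * polar Q (e i) (e i) := by
    intro x i
    rw [polar_comm, hexp, Finset.sum_eq_single i]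
    · intro j _ hj
      have : polar Q (e j) (e i) = 0 := he hj
      rw [this, mul_zero]
    · simp
  have hw : polar Q (e i0) (e i0) ≠ 0 := by
    intro h
    have : e i0 ∈ Q.radical := by
      rw [radical_eq_ker_polarBilin, LinearMap.mem_ker]
      ext v
      simp only [polarBilin_apply_apply, LinearMap.zero_apply]
      rw [hdiag, h, mul_zero]
    rw [hQ, Submodule.mem_bot] at this
    exact e.ne_zero i0 this
  have hm : ∀ k, m k ∈ W := by
    intro k
    by_cases hk : k = s(i0, i0)
    · have h1 : m k = -(polar Q (e i0) (e i0))⁻¹ •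
          ∑ i ∈ Finset.univ.erase i0, polar Q (e i) (e i) • m s(i, i) := by
        funext x
        have h2 : polar Q (x : V) x = 0 := by rw [polar_self, x.2]; simp
        rw [hexp, ← Finset.add_sum_erase _ _ (Finset.mem_univ i0)] at h2
        simp only [hdiag x] at h2
        simp only [hk, m, Sym2.lift_mk, Pi.smul_apply, Finset.sum_apply, smul_eq_mul]
        have h3 : ∑ i ∈ Finset.univ.erase i0, polar Q (e i) (e i) * (e.repr x i * e.repr x i) =
            ∑ i ∈ Finset.univ.erase i0, e.repr x i * (e.repr x i * polar Q (e i) (e i)) :=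
          Finset.sum_congr rfl fun i _ => by ring
        rw [h3]
        generalize ∑ i ∈ Finset.univ.erase i0, e.repr x i * (e.repr x i * polar Q (e i) (e i)) = t
          at h2
        field_simp
        linear_combination h2
      rw [h1]
      refine W.smul_mem _ (W.sum_mem fun i hi => W.smul_mem _ ?_)
      refine Submodule.subset_span ⟨⟨s(i, i), ?_⟩, rfl⟩
      simpa using hi
    · exact Submodule.subset_span ⟨⟨k, hk⟩, rfl⟩
  have hg : ∀ y : V, ∃ c : ι → F, ∑ k, c k • m k =
      fun x : {x : V // Q x = 0} => polar Q (x : V) y ^ 2 := by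
    intro y
    rw [← Submodule.mem_span_range_iff_exists_fun]
    have : (fun x : {x : V // Q x = 0} => polar Q (x : V) y ^ 2) =
        ∑ i, ∑ j, (polar Q (e i) y * polar Q (e j) y) • m s(i, j) := by
      funext x
      simp only [m, Sym2.lift_mk, Pi.smul_apply, Finset.sum_apply, smul_eq_mul]
      rw [hexp, pow_two, Finset.sum_mul_sum]
      exact Finset.sum_congr rfl fun i _ => Finset.sum_congr rfl fun j _ => by ring
    rw [this]
    exact W.sum_mem fun i _ => W.sum_mem fun j _ => W.smul_mem _ (hm _)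
  choose c hc using hg
  refine ⟨ι, inferInstance, fun k x => if h : Q x = 0 then m k ⟨x, h⟩ else 0, fun k y => c y k,
    ?_, fun x y hx _ => ?_⟩
  · rw [Fintype.card_subtype_compl, Sym2.card, Fintype.card_fin, Fintype.card_unique]
  · have := congrFun (hc y) ⟨x, hx⟩
    simp only [Finset.sum_apply, Pi.smul_apply, smul_eq_mul] at this
    rw [← this]
    exact Finset.sum_congr rfl fun k _ => by simp only [dif_pos hx, mul_comm]

lemma three_num (s : ℕ) : (2 * (s + 5) + 1).choose 2 - 1 ≤ 3 ^ (s + 4) := by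
  have : ∀ s : ℕ, (s + 5) * (2 * s + 11) ≤ 3 ^ (s + 4) := by
    intro s
    induction s with
    | zero => norm_num
    | succ s ih => rw [show s + 1 + 4 = (s + 4) + 1 from rfl, pow_succ]; nlinarith
  have h := this s
  rw [Nat.choose_two_right]
  have h2 : (2 * (s + 5) + 1) * (2 * (s + 5) + 1 - 1) / 2 = (s + 5) * (2 * s + 11) := by
    rw [Nat.add_sub_cancel, show (2 * (s + 5) + 1) * (2 * (s + 5)) = 2 * ((s + 5) * (2 * s + 11)) by
      ring, Nat.mul_div_cancel_left _ two_pos]
  omega

theorem char_three [Finite F] [CharP F 3] [FiniteDimensional F V] (hQ : Q.radical = ⊥) {r : ℕ}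
    (hr : HasWittIndex Q r) (h2 : 2 ≤ r) (h : HasOvoidPartition Q) :
    (finrank F V = 4 ∧ r = 2) ∨ (finrank F V = 5 ∧ r = 2) ∨ (finrank F V = 6 ∧ r = 3) ∨
      (finrank F V = 8 ∧ r = 4) := by
  classical
  have : Fintype F := Fintype.ofFinite F
  have : Fact (Nat.Prime 3) := ⟨Nat.prime_three⟩
  have : NeZero (2 : F) := ⟨by
    have := (CharP.cast_eq_zero_iff F 3 2).not.2 (by norm_num)
    simpa using this⟩
  obtain ⟨G, hG, -⟩ := exists_gen (Q := Q) (W := ⊥) (by intro v hv; simp_all)
  have hGr := hr G hG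
  have hle := TotSing.two_mul_le hQ hG.1
  obtain ⟨hh, -, hq⟩ := FiniteField.card F 3
  by_contra hc
  obtain ⟨ι, _, φ, ψ, hι, H⟩ := sq_factor hQ (by omega)
  refine no_partition hQ (by omega) hG (perpFactor_of_pow hq φ ψ H) ?_ h
  rw [Fintype.card_option, Fintype.card_fun, Fintype.card_fin, Nat.card_eq_fintype_card, hq,
    ← pow_mul, mul_comm, pow_mul, hι, hGr]
  refine Nat.succ_le_succ (Nat.pow_le_pow_left ?_ _)
  rw [hGr] at hle
  generalize finrank F V = n at *
  by_cases h5 : 5 ≤ n - r
  · obtain ⟨s, hs⟩ := Nat.exists_eq_add_of_le' h5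
    have h6 := three_num s
    have h7 : (n + 1).choose 2 ≤ (2 * (s + 5) + 1).choose 2 := Nat.choose_le_choose _ (by omega)
    rw [hs, show s + 5 - 1 = s + 4 from rfl]
    omega
  · have h8 : n - r - 1 = 3 := by omega
    have h7 : (n + 1).choose 2 ≤ (8).choose 2 := Nat.choose_le_choose _ (by omega)
    rw [h8]
    have : (8).choose 2 = 28 := by norm_num [Nat.choose]
    omega

end Pool.Agent.MP_da2386_co

end
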